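import Pool.Agent.H474.MS.Stm

set_option autoImplicit false

open MeasureTheory Filter Topology Set

namespace Pool.Agent.H195.MS.L5b

theorem t_L5b : Pool.Agent.H474.MS.S_L5b := by
  unfold Pool.Agent.H474.MS.S_L5b
  have hd : ∀ x ∈ Ici (0 : ℝ), HasDerivAt (fun x : ℝ => -((x ^ 2 + 1) * Real.exp (-(x ^ 2 / 2))))
      ((x ^ 2 - 1) * Real.exp (-(x ^ 2 / 2)) * x) x := by
    intro x _
    have h1 : HasDerivAt (fun x : ℝ => x ^ 2 + 1) (2 * x) x := by
      simpa using (hasDerivAt_pow 2 x).add_const 1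
    have h2 : HasDerivAt (fun x : ℝ => -(x ^ 2 / 2)) (-x) x := by
      have := ((hasDerivAt_pow 2 x).div_const 2).neg
      refine this.congr_deriv ?_
      push_cast
      ring
    refine (h1.mul h2.exp).neg.congr_deriv ?_
    ring
  have hi : IntegrableOn (fun x : ℝ => (x ^ 2 - 1) * Real.exp (-(x ^ 2 / 2)) * x) (Ioi 0) := by
    refine Integrable.integrableOn ?_
    have h1 := integrable_rpow_mul_exp_neg_mul_sq (b := 1 / 2) (by norm_num)
      (s := ((3 : ℕ) : ℝ)) (by norm_num)
    have h2 := integrable_rpow_mul_exp_neg_mul_sq (b := 1 / 2) (by norm_num)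
      (s := ((1 : ℕ) : ℝ)) (by norm_num)
    simp only [Real.rpow_natCast] at h1 h2
    refine (h1.sub h2).congr (Eventually.of_forall fun x => ?_)
    have : -(1 / 2 : ℝ) * x ^ 2 = -(x ^ 2 / 2) := by ring
    simp only [Pi.sub_apply, this]
    ring
  have ht : Tendsto (fun x : ℝ => -((x ^ 2 + 1) * Real.exp (-(x ^ 2 / 2)))) atTop (𝓝 0) := by
    have hu : Tendsto (fun x : ℝ => x ^ 2 / 2) atTop atTop :=
      (tendsto_pow_atTop (by norm_num)).atTop_div_const (by norm_num)
    have h1 := (Real.tendsto_pow_mul_exp_neg_atTop_nhds_zero 1).comp hu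
    have h2 := (Real.tendsto_pow_mul_exp_neg_atTop_nhds_zero 0).comp hu
    have h3 := ((h1.const_mul 2).add h2).neg
    simp only [mul_zero, add_zero, neg_zero] at h3
    refine h3.congr fun x => ?_
    simp only [Function.comp, pow_one, pow_zero, one_mul]
    ring
  rw [integral_Ioi_of_hasDerivAt_of_tendsto' hd hi ht]
  norm_num

end Pool.Agent.H195.MS.L5b
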